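import Mathlib.Combinatorics.SimpleGraph.Finite
import Mathlib.Data.Fintype.Powerset
import Mathlib.Tactic

/-!
# A vertex lying in no locally minimal defensive alliance (MP_b7e006_co)

An explicit graph on 8 vertices with minimum degree 2 and a vertex of it that is
contained in no locally minimal defensive alliance.
-/

namespace Pool.Agent.Results.MP_b7e006_co.UncoveredVertex

/-- `D` is a defensive alliance of `G`: it is nonempty and every `v ∈ D` has at least as many
vertices of its closed neighbourhood in `D` as neighbours outside `D`. -/
def IsDefensiveAlliance {V : Type*} [Fintype V] [DecidableEq V] (G : SimpleGraph V)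
    [DecidableRel G.Adj] (D : Finset V) : Prop :=
  D.Nonempty ∧ ∀ v ∈ D, (G.neighborFinset v \ D).card ≤ (insert v (G.neighborFinset v) ∩ D).card

/-- A defensive alliance is locally minimal if deleting any one of its vertices leaves a set which
is not a defensive alliance. -/
def IsLocallyMinimal {V : Type*} [Fintype V] [DecidableEq V] (G : SimpleGraph V)
    [DecidableRel G.Adj] (D : Finset V) : Prop :=
  IsDefensiveAlliance G D ∧ ∀ v ∈ D, ¬ IsDefensiveAlliance G (D.erase v)

/-- Adjacency rows of the example, as bit masks. -/
def row (i : Fin 8) : ℕ :=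
  match i.val with
  | 0 => 0xfa
  | 1 => 0xfd
  | 2 => 0x22
  | 3 => 0xf3
  | 4 => 0xeb
  | 5 => 0xdf
  | 6 => 0xbb
  | _ => 0x7b

/-- The example graph. -/
def G : SimpleGraph (Fin 8) where
  Adj i j := (row i).testBit j.val = true
  symm := ⟨by decide⟩
  loopless := ⟨by decide⟩

instance : DecidableRel G.Adj := fun i j => inferInstanceAs (Decidable ((row i).testBit j.val = true))

instance (D : Finset (Fin 8)) : Decidable (IsDefensiveAlliance G D) := by
  unfold IsDefensiveAlliance; infer_instance

instance (D : Finset (Fin 8)) : Decidable (IsLocallyMinimal G D) := by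
  unfold IsLocallyMinimal; infer_instance

theorem result : ∃ (n : ℕ) (G : SimpleGraph (Fin n)) (_ : DecidableRel G.Adj) (v : Fin n),
    (∀ w, 2 ≤ G.degree w) ∧ ∀ D : Finset (Fin n), IsLocallyMinimal G D → v ∉ D := by
  refine ⟨8, G, inferInstance, 2, by decide, ?_⟩
  decide +kernel

end Pool.Agent.Results.MP_b7e006_co.UncoveredVertex
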